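import Pool.Agent.Run7.h787.ST.Iface
import Pool.Agent.K3h73.RS.Cheb

/-! # Chebotarev for `LData` -/

set_option autoImplicit false

open NumberField IsDedekindDomain

namespace Run7.h803.ST

open Pool.Agent.Run7.h787.ST

theorem exists_of_pos {F : Type} [Field F] [NumberField F] {P : HeightOneSpectrum (𝓞 F) → Prop}
    (h : Pool.Agent.K3h30.RS.PosProportion P) : ∃ v, P v := by
  by_contra hno
  push Not at hno
  obtain ⟨c, hc, hev⟩ := h
  obtain ⟨X, hX2, hX⟩ := ((Filter.eventually_ge_atTop 2).and hev).exists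
  have hem : IsEmpty {v : HeightOneSpectrum (𝓞 F) // P v ∧ Ideal.absNorm v.asIdeal ≤ X} :=
    ⟨fun v => hno v.1 v.2.1⟩
  rw [Nat.card_of_isEmpty, Nat.cast_zero] at hX
  have hp : 0 < Nat.primeCounting X := by
    have h1 : Nat.primeCounting 2 ≤ Nat.primeCounting X := Nat.monotone_primeCounting hX2
    have h2 : Nat.primeCounting 2 = 1 := by decide
    omega
  have hp' : (0 : ℝ) < Nat.primeCounting X := by exact_mod_cast hp
  exact absurd hX (not_le.2 (mul_pos hc hp'))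

theorem isIntegral_aut {K : Type} [Field K] [NumberField K] [Algebra K ℝ]
    {H : IntermediateField K ℝ} (g : Gal H) (x : H) (hx : IsIntegral ℤ (x : ℝ)) :
    IsIntegral ℤ ((g x : H) : ℝ) := by
  have h1 : IsIntegral ℤ x := by
    have := (isIntegral_algHom_iff (H.val.restrictScalars ℤ) (x := x) Subtype.val_injective)
    exact this.1 hx
  have h2 : IsIntegral ℤ (g x) := h1.map (g.toAlgHom.restrictScalars ℤ)
  exact (isIntegral_algHom_iff (H.val.restrictScalars ℤ) (x := g x) Subtype.val_injective).2 h2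

theorem sub_mem {P : Set ℝ} (hP : IsRealPrime P) {x y : ℝ} (hx : x ∈ P) (hy : y ∈ P) :
    x - y ∈ P := by
  have h1 : (-1 : ℝ) * y ∈ P :=
    hP.2.2.2.1 _ _ (by
      have : IsIntegral ℤ (1 : ℝ) := isIntegral_one
      exact this.neg) hy
  have := hP.2.2.1 _ hx _ h1
  rwa [neg_one_mul, ← sub_eq_add_neg] at this

theorem t_CHEB : S_GOUP → S_UNIQ → S_CHEB := by
  intro hG _ K _ _ _ H S B D σ hH hun
  classical
  have := hH.1
  have : NumberField H := NumberField.of_module_finite K H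
  obtain ⟨v, hvb, Q, ⟨v', hv', hQv⟩, hσ⟩ :=
    exists_of_pos (Pool.Agent.K3h73.RS.t_CHEB K H σ (S ∪ B))
  rw [Set.mem_singleton_iff] at hv'
  subst hv'
  rw [Finset.mem_union, not_or] at hvb
  refine ⟨v', hvb.1, hvb.2, ?_⟩
  obtain ⟨P, hP, hPQ⟩ := (hG K).1 H hH.1 Q
  have hov : Over v' P := by
    refine ⟨hP, fun x => ?_⟩
    have h1 := hPQ (algebraMap (𝓞 K) (𝓞 H) x)
    rw [← hQv, Ideal.mem_comap, ← h1]
    exact Iff.rfl
  have hσ' : ∀ x : H, IsIntegral ℤ (x : ℝ) →
      ((σ x : H) : ℝ) - (x : ℝ) ^ Ideal.absNorm v'.asIdeal ∈ P := by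
    intro x hx
    have hxi : IsIntegral ℤ x :=
      (isIntegral_algHom_iff (H.val.restrictScalars ℤ) (x := x) Subtype.val_injective).1 hx
    have hσi : IsIntegral ℤ (σ x) := hxi.map (σ.toAlgHom.restrictScalars ℤ)
    obtain ⟨x', hx'⟩ : ∃ x' : 𝓞 H, algebraMap (𝓞 H) H x' = x := ⟨⟨x, hxi⟩, rfl⟩
    obtain ⟨y', hy'⟩ : ∃ y' : 𝓞 H, algebraMap (𝓞 H) H y' = σ x := ⟨⟨σ x, hσi⟩, rfl⟩
    have h1 := hσ x'
    have hz : algebraMap (𝓞 H) H (y' - x' ^ Ideal.absNorm v'.asIdeal) =
        σ x - x ^ Ideal.absNorm v'.asIdeal := by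
      rw [map_sub, map_pow, hx', hy']
    have h2 := (hPQ (y' - x' ^ Ideal.absNorm v'.asIdeal)).2 (by
      rw [← HeightOneSpectrum.valuation_lt_one_iff_mem (K := H)]
      change Q.valuation H (algebraMap (𝓞 H) H (y' - x' ^ Ideal.absNorm v'.asIdeal)) < 1
      rw [hz, ← hx']
      exact h1)
    have h3 : (((algebraMap (𝓞 H) H) (y' - x' ^ Ideal.absNorm v'.asIdeal) : H) : ℝ) ∈ P := h2
    rw [hz] at h3
    exact h3
  have hfr := D.isFrob v' hvb.1 P hov
  have key : σ * (D.frob v')⁻¹ = 1 := by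
    refine hun v' hvb.1 P hov _ ?_
    intro y hy
    set x : H := (D.frob v')⁻¹ y with hx
    have hxi : IsIntegral ℤ (x : ℝ) := isIntegral_aut _ y hy
    have hy' : D.frob v' x = y := by
      rw [hx]
      exact (D.frob v').apply_symm_apply y
    have h1 := hσ' x hxi
    have h2 := hfr x hxi
    have h3 := sub_mem hP h1 h2
    rw [hy'] at h3
    have h4 : (σ * (D.frob v')⁻¹) y = σ x := rfl
    rw [h4]
    convert h3 using 1
    ring
  rw [mul_inv_eq_one] at key
  exact key.symm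

end Run7.h803.ST
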