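import Pool.Agent.Run7.h787.ST.Iface

/-! # Restriction of automorphisms -/

set_option autoImplicit false

open NumberField IsDedekindDomain

namespace Run7.h803.ST

open Pool.Agent.Run7.h787.ST

theorem t_RES : S_RES := by
  intro K _ _ _ H L hHL hH hL
  let : Algebra H L := (IntermediateField.inclusion hHL).toRingHom.toAlgebra
  have : IsScalarTower K H L := IsScalarTower.of_algebraMap_eq fun x => rfl
  have := hH.1
  have := hL.1
  have := hH.2
  have := hL.2
  have : Normal K H := IsGalois.to_normal
  have : Normal K L := IsGalois.to_normal
  refine ⟨AlgEquiv.restrictNormalHom H, ?_, AlgEquiv.restrictNormalHom_surjective (L : Type)⟩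
  intro g x y hxy
  have h1 : algebraMap H L x = y := Subtype.ext hxy
  have h2 := AlgEquiv.restrictNormal_commutes g H x
  rw [h1] at h2
  rw [← h2]
  rfl

end Run7.h803.ST
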